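import Pool.Agent.MT100G.Stmts
import Pool.Agent.Helper78_M100.Lad4

/-! MT100-GEN: substitutions in polynomials on matrices, the Zariski closure of a normalised group and
its Lie algebra. -/

set_option autoImplicit false
set_option linter.unusedSectionVars false
set_option linter.unusedSimpArgs false

namespace Pool.Agent.MT100G.H15

open MvPolynomial Matrix Pool.Agent.Helper78_MT Pool.Agent.MT100.H78

section subst
variable {n : Type*} [Fintype n] [DecidableEq n] {K : Type*} [Field K]

/-- the generic matrix -/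
noncomputable def gen : Matrix n n (MvPolynomial (n × n) K) := fun i j => X (i, j)

/-- substitution of a matrix of polynomials -/
noncomputable def sub (P : Matrix n n (MvPolynomial (n × n) K)) :
    MvPolynomial (n × n) K →ₐ[K] MvPolynomial (n × n) K := aeval (fun ij : n × n => P ij.1 ij.2)

theorem pev_sub (P : Matrix n n (MvPolynomial (n × n) K)) (M : Matrix n n K)
    (p : MvPolynomial (n × n) K) : pev M (sub P p) = pev (P.map (pev M)) p := by
  have h : (pev (F := K) M).comp (sub P) = pev (F := K) (P.map (pev M)) := by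
    apply MvPolynomial.algHom_ext
    intro ij
    simp [pev, sub]
  rw [← h]; rfl

theorem map_gen (M : Matrix n n K) : (gen : Matrix n n (MvPolynomial (n × n) K)).map (pev M) = M := by
  ext i j
  simp [gen, pev_X]

theorem map_C (M A : Matrix n n K) :
    (A.map (C : K → MvPolynomial (n × n) K)).map (pev M) = A := by
  ext i j
  simp [pev_C]

theorem map_gen_transpose (M : Matrix n n K) :
    ((gen : Matrix n n (MvPolynomial (n × n) K))ᵀ).map (pev M) = Mᵀ := by
  ext i j
  simp [gen, pev_X]

/-- `p (A x B xᵀ D)` is a polynomial in `x` -/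
theorem quad (A B D : Matrix n n K) (p : MvPolynomial (n × n) K) :
    ∃ q : MvPolynomial (n × n) K, ∀ M : Matrix n n K, pev M q = pev (A * M * B * Mᵀ * D) p := by
  refine ⟨sub ((A.map C) * gen * (B.map C) * genᵀ * (D.map C)) p, ?_⟩
  intro M
  rw [pev_sub, Matrix.map_mul, Matrix.map_mul, Matrix.map_mul, Matrix.map_mul, map_gen,
    map_gen_transpose, map_C, map_C, map_C]

/-- conjugation and the derivations -/
theorem dr_conj {g g' : Matrix n n K} (hg : g' * g = 1) (A : Matrix n n K)
    (p : MvPolynomial (n × n) K) :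
    dr A (lsub g (rsub g' p)) = lsub g (rsub g' (dr (g * A * g') p)) := by
  induction p using MvPolynomial.induction_on with
  | C c => simp [lsub, rsub]
  | add p q hp hq => simp only [map_add, hp, hq]
  | mul_X p ij hp =>
    rw [map_mul, map_mul, Derivation.leibniz, Derivation.leibniz, map_add, map_add, smul_eq_mul,
      smul_eq_mul, smul_eq_mul, smul_eq_mul, map_mul, map_mul, map_mul, map_mul, hp]
    congr 2
    have e1 : ∀ ij : n × n, lsub g (rsub g' (X ij)) =
        ∑ k, ∑ l, (g ij.1 l * g' k ij.2) • (X (l, k) : MvPolynomial (n × n) K) := by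
      intro ij
      simp only [rsub, lsub, aeval_X, map_sum, map_mul, algHom_C, algebraMap_eq]
      apply Finset.sum_congr rfl
      intro k _
      rw [Finset.sum_mul]
      apply Finset.sum_congr rfl
      intro l _
      rw [smul_eq_C_mul, map_mul]
      ring
    rw [e1, map_sum, dr_X]
    simp only [map_sum, map_smul, Derivation.map_smul, dr_X, e1, Finset.smul_sum, smul_smul]
    have hA : A * g' = g' * (g * A * g') := by
      rw [← mul_assoc, ← mul_assoc, hg, one_mul]
    have l1 : ∑ x, ∑ x_1, ∑ m, (g ij.1 x_1 * g' x ij.2 * A m x) •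
        (X (x_1, m) : MvPolynomial (n × n) K) =
        ∑ l, ∑ m, (g ij.1 l * (A * g') m ij.2) • X (l, m) := by
      rw [Finset.sum_comm]
      apply Finset.sum_congr rfl
      intro l _
      rw [Finset.sum_comm]
      apply Finset.sum_congr rfl
      intro m _
      rw [← Finset.sum_smul, Matrix.mul_apply, Finset.mul_sum]
      congr 1
      apply Finset.sum_congr rfl
      intro k _
      ring
    have l2 : ∑ x, ∑ x_1, ∑ x_2, ((g * A * g') x ij.2 * (g ij.1 x_2 * g' x_1 x)) •
        (X (x_2, x_1) : MvPolynomial (n × n) K) =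
        ∑ l, ∑ m, (g ij.1 l * (A * g') m ij.2) • X (l, m) := by
      rw [Finset.sum_comm]
      have l3 : ∀ m : n, ∑ x, ∑ x_2, ((g * A * g') x ij.2 * (g ij.1 x_2 * g' m x)) •
          (X (x_2, m) : MvPolynomial (n × n) K) =
          ∑ l, (g ij.1 l * (A * g') m ij.2) • X (l, m) := by
        intro m
        rw [Finset.sum_comm]
        apply Finset.sum_congr rfl
        intro l _
        rw [← Finset.sum_smul, hA, Matrix.mul_apply, Finset.mul_sum]
        congr 1
        apply Finset.sum_congr rfl
        intro k _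
        ring
      rw [Finset.sum_congr rfl (fun m _ => l3 m), Finset.sum_comm]
    rw [l1, l2]

/-- the derivative along a curve at the origin -/
theorem cev_deriv_zero {Γ : Matrix n n (Polynomial K)} {A : Matrix n n K}
    (h : ∀ i j, (Polynomial.derivative (Γ i j)).eval 0 = ∑ k, (Γ i k).eval 0 * A k j)
    (p : MvPolynomial (n × n) K) :
    (Polynomial.derivative (cev Γ p)).eval 0 = pev (Γ.map (Polynomial.eval 0)) (dr A p) := by
  induction p using MvPolynomial.induction_on with
  | C c => simp [cev]
  | add p q hp hq => rw [map_add, map_add, Polynomial.eval_add, hp, hq, map_add, map_add]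
  | mul_X p ij hp =>
    rw [map_mul, Polynomial.derivative_mul, Derivation.leibniz, map_add, smul_eq_mul, smul_eq_mul,
      map_mul, map_mul, Polynomial.eval_add, Polynomial.eval_mul, Polynomial.eval_mul, hp, dr_X,
      map_sum]
    have e1 : cev Γ (X ij) = Γ ij.1 ij.2 := by simp [cev]
    have e2 : ∀ k, pev (Γ.map (Polynomial.eval 0)) (A k ij.2 • (X (ij.1, k) : MvPolynomial (n × n) K)) =
        (Γ ij.1 k).eval 0 * A k ij.2 := by
      intro k; rw [map_smul, pev_X]; simp [mul_comm]
    rw [e1, h, Finset.sum_congr rfl (fun k _ => e2 k), cev_eval, pev_X]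
    simp only [Matrix.map_apply]
    ring

end subst

section closure
variable {n : Type*} [Fintype n] [DecidableEq n] {K : Type*} [Field K]

/-- what is needed of a Zariski closed group: the closure of a group of matrices -/
theorem zcl_closed (T : Set (Matrix n n K)) (hT : ∀ a ∈ T, IsUnit a.det) (M : Matrix n n K)
    (hM : IsUnit M.det) (h : ∀ p : MvPolynomial (n × n) K, (∀ g ∈ zcl T, pev g p = 0) → pev M p = 0) :
    M ∈ zcl T := by
  refine ⟨hM, fun p hp => h p ?_⟩
  intro g hg
  exact hg.2 p hp

/-- a group normalised by a set `S`; the closure is normalised by the closure of `S` inside the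
isometries of a form -/
theorem zcl_conj {E : Matrix n n K} (hE : IsUnit E.det) {M Γ : Set (Matrix n n K)}
    {G : Set (Matrix n n K)} (hG : ∀ g ∈ G, gᵀ * E * g = E)
    (hM : ∀ f : MvPolynomial (n × n) K, (∀ g ∈ M, pev g f = 0) → ∀ g ∈ G, pev g f = 0)
    (hMG : ∀ g ∈ M, gᵀ * E * g = E) (hn : ∀ m ∈ M, ∀ a ∈ Γ, m * a * m⁻¹ ∈ Γ)
    {z : Matrix n n K} (hz : z ∈ zcl Γ) {g : Matrix n n K} (hg : g ∈ G) : g * z * g⁻¹ ∈ zcl Γ := by
  have hinv : ∀ x : Matrix n n K, xᵀ * E * x = E → E⁻¹ * xᵀ * E = x⁻¹ ∧ IsUnit x.det := by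
    intro x hx
    have h1 : (E⁻¹ * xᵀ * E) * x = 1 := by
      rw [mul_assoc, mul_assoc, ← mul_assoc xᵀ, hx, nonsing_inv_mul E hE]
    exact ⟨(inv_eq_left_inv h1).symm, (isUnit_iff_isUnit_det x).mp (IsUnit.of_mul_eq_one_right _ h1)⟩
  refine ⟨?_, ?_⟩
  · have h1 := (hinv g (hG g hg)).2
    rw [det_mul, det_mul]
    exact (h1.mul hz.1).mul (isUnit_nonsing_inv_det g h1)
  · intro p hp
    obtain ⟨q, hq⟩ := quad (1 : Matrix n n K) (z * E⁻¹) E p
    have h2 : ∀ x : Matrix n n K, xᵀ * E * x = E → pev x q = pev (x * z * x⁻¹) p := by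
      intro x hx
      rw [hq, ← (hinv x hx).1, one_mul]
      congr 2
      simp only [mul_assoc]
    rw [← h2 g (hG g hg)]
    apply hM _ _ g hg
    intro m hm
    rw [h2 m (hMG m hm), ← pev_rsub, ← pev_lsub]
    apply hz.2
    intro t ht
    rw [pev_lsub, pev_rsub]
    exact hp _ (hn m hm t ht)

/-- the Lie algebra is stable under conjugation by the elements which normalise the set -/
theorem lieOf_conj {Z : Set (Matrix n n K)} {g g' : Matrix n n K} (h1 : g' * g = 1) (h2 : g * g' = 1)
    (hc : ∀ z ∈ Z, g * z * g' ∈ Z) (hc' : ∀ z ∈ Z, g' * z * g ∈ Z) {A : Matrix n n K}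
    (hA : A ∈ lieOf Z) : g * A * g' ∈ lieOf Z := by
  rw [mem_lieOf] at *
  intro p hp h hh
  have h3 := hA (lsub g (rsub g' p)) (by
    intro z hz
    rw [pev_lsub, pev_rsub]
    exact hp _ (hc z hz)) (g' * h * g) (hc' h hh)
  rw [dr_conj h1, pev_lsub, pev_rsub] at h3
  have h4 : g * (g' * h * g) * g' = h := by
    rw [← mul_assoc, ← mul_assoc, h2, one_mul, mul_assoc, h2, mul_one]
  rwa [h4] at h3

variable [CharZero K]

/-- the derivative of the curve `(1 + s A) (1 - s B)` -/
theorem lieOf_prod {Z : Set (Matrix n n K)} (hmul : ∀ a ∈ Z, ∀ b ∈ Z, a * b ∈ Z) {A B : Matrix n n K}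
    (h : ∀ s : K, (1 + s • A) * (1 + s • B) ∈ Z) : A + B ∈ lieOf Z := by
  rw [mem_lieOf]
  intro p hp g hg
  let Γ : Matrix n n (Polynomial K) := fun i j => Polynomial.C (g i j) +
    Polynomial.X * Polynomial.C ((g * (A + B)) i j) +
    Polynomial.X ^ 2 * Polynomial.C ((g * (A * B)) i j)
  have hev : ∀ s : K, Γ.map (Polynomial.eval s) = g * ((1 + s • A) * (1 + s • B)) := by
    intro s
    have e1 : g * ((1 + s • A) * (1 + s • B)) =
        g + s • (g * (A + B)) + (s ^ 2) • (g * (A * B)) := by
      simp only [mul_add, add_mul, mul_one, one_mul, smul_mul_assoc, mul_smul_comm, smul_smul,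
        smul_add]
      module
    rw [e1]
    ext i j
    simp [Γ]
    ring
  have h2 : cev Γ p = 0 := by
    apply poly_zero_of_eval
    intro t _
    rw [cev_eval, hev]
    exact hp _ (hmul _ hg _ (h t))
  have h3 := cev_deriv_zero (Γ := Γ) (A := A + B) (by
    intro i j
    have e2 : ∀ k, (Γ i k).eval 0 = g i k := by
      intro k
      simp [Γ]
    simp only [e2]
    rw [← Matrix.mul_apply]
    simp [Γ]) p
  rw [h2, Polynomial.derivative_zero, Polynomial.eval_zero, hev] at h3
  simp only [zero_smul, add_zero, mul_one] at h3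
  exact h3.symm

end closure

end Pool.Agent.MT100G.H15
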