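import Pool.Agent.Helper15_MT100G.Grp

/-! MT100-GEN, module NRM: normal subgroups of Zariski dense subgroups of the symplectic group. -/

set_option autoImplicit false
set_option linter.unusedSectionVars false
set_option linter.unusedSimpArgs false

namespace Pool.Agent.MT100G.H15

open Matrix Module Pool.Agent.Helper78_MT Pool.Agent.MT100.H78

section lin
variable {n : Type*} [Fintype n] [DecidableEq n] {K : Type*} [Field K] [CharZero K]

theorem exists_bil {E : Matrix n n K} (hE : IsUnit E.det) {v : n → K} (hv : v ≠ 0) :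
    ∃ u, bil E v u ≠ 0 := by
  by_contra hc
  push Not at hc
  exact hv (nondeg hE v hc)

/-- a vector whose products with two given nonzero vectors are not zero -/
theorem avoid2 {E : Matrix n n K} (hE : IsUnit E.det) {v w : n → K} (hv : v ≠ 0) (hw : w ≠ 0) :
    ∃ u, bil E v u ≠ 0 ∧ bil E w u ≠ 0 := by
  obtain ⟨a, ha⟩ := exists_bil hE hv
  obtain ⟨b, hb⟩ := exists_bil hE hw
  by_cases h1 : bil E w a ≠ 0
  · exact ⟨a, ha, h1⟩
  by_cases h2 : bil E v b ≠ 0
  · exact ⟨b, h2, hb⟩
  push Not at h1 h2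
  refine ⟨a + b, ?_, ?_⟩
  · rw [map_add, h2, add_zero]; exact ha
  · rw [map_add, h1, zero_add]; exact hb

/-- a vector orthogonal to `x` and not to `y` -/
theorem dual2 {E : Matrix n n K} (hE : IsUnit E.det) {x y : n → K} (h : ∀ c : K, y ≠ c • x) :
    ∃ v, bil E x v = 0 ∧ bil E y v ≠ 0 := by
  by_contra hc
  push Not at hc
  by_cases hx : x = 0
  · apply h 0
    rw [zero_smul]
    apply nondeg hE
    intro v
    apply hc
    rw [hx, map_zero, LinearMap.zero_apply]
  · obtain ⟨a, ha⟩ := exists_bil hE hx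
    apply h (bil E y a / bil E x a)
    rw [← sub_eq_zero]
    apply nondeg hE
    intro v
    have h1 := hc (v - (bil E x v / bil E x a) • a) (by
      rw [map_sub, map_smul, smul_eq_mul, div_mul_cancel₀ _ ha, sub_self])
    rw [map_sub, map_smul, smul_eq_mul] at h1
    rw [map_sub, map_smul, LinearMap.sub_apply, LinearMap.smul_apply, smul_eq_mul]
    field_simp at h1 ⊢
    linear_combination h1

/-- a matrix which is not a scalar has a vector which is not an eigenvector -/
theorem not_eigen {a : Matrix n n K} (h : ¬ ∃ c : K, a = c • (1 : Matrix n n K)) :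
    ∃ x : n → K, ∀ c : K, a *ᵥ x ≠ c • x := by
  by_contra hc
  push Not at hc
  apply h
  obtain ⟨c, h1⟩ := hc (fun _ => 1)
  refine ⟨c, ?_⟩
  have h2 : ∀ i j, i ≠ j → a i j = 0 := by
    intro i j hij
    obtain ⟨d, hd⟩ := hc (Pi.single j 1)
    have h3 := congrFun hd i
    rw [mulVec_single_one, Pi.smul_apply, Pi.single_eq_of_ne hij, smul_zero] at h3
    exact h3
  ext i j
  by_cases hij : i = j
  · subst hij
    have h3 := congrFun h1 i
    rw [Pi.smul_apply, smul_eq_mul, mul_one] at h3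
    rw [Matrix.smul_apply, one_apply_eq, smul_eq_mul, mul_one, ← h3, mulVec, dotProduct,
      Finset.sum_eq_single i]
    · rw [mul_one]
    · intro b _ hb
      rw [h2 i b hb.symm, zero_mul]
    · intro hi
      exact absurd (Finset.mem_univ i) hi
  · rw [h2 i j hij, Matrix.smul_apply, one_apply_ne hij, smul_zero]

/-- transvections are isometries -/
theorem tr_iso {E : Matrix n n K} (hskew : Eᵀ = -E) (x : n → K) (s : K) :
    (1 + s • s2 E x x)ᵀ * E * (1 + s • s2 E x x) = E := by
  apply bil_inj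
  intro u v
  rw [← bil_mul]
  have h1 : ∀ u, (1 + s • s2 E x x) *ᵥ u = u + (2 * s * bil E x u) • x := by
    intro u
    rw [add_mulVec, one_mulVec, smul_mulVec, s2_mulVec]
    module
  rw [h1, h1]
  simp only [map_add, map_smul, LinearMap.add_apply, LinearMap.smul_apply, smul_eq_mul,
    selfz hskew x]
  rw [skewm hskew u x]
  ring

theorem tr_inv {E : Matrix n n K} (hskew : Eᵀ = -E) (x : n → K) (s : K) :
    (1 + s • s2 E x x)⁻¹ = 1 + s • (-s2 E x x) := by
  apply inv_eq_right_inv
  rw [smul_neg, ← sub_eq_add_neg, mul_sub, mul_one, add_mul, one_mul, smul_mul_smul_comm,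
    tr_sq hskew, smul_zero, add_zero, add_sub_cancel_right]

/-- A closed monoid of isometries normalised by all isometries which contains an element which is not
a scalar, with its inverse, contains all isometries. -/
theorem nrm_core {E : Matrix n n K} (hE : IsUnit E.det) (hskew : Eᵀ = -E)
    {Z : Set (Matrix n n K)} (hone : 1 ∈ Z) (hmul : ∀ a ∈ Z, ∀ b ∈ Z, a * b ∈ Z)
    (hcl : ∀ M : Matrix n n K, IsUnit M.det →
      (∀ p : MvPolynomial (n × n) K, (∀ g ∈ Z, pev g p = 0) → pev M p = 0) → M ∈ Z)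
    (hconj : ∀ g : Matrix n n K, gᵀ * E * g = E → ∀ z ∈ Z, g * z * g⁻¹ ∈ Z)
    {a : Matrix n n K} (ha : a ∈ Z) (ha' : a⁻¹ ∈ Z) (haE : aᵀ * E * a = E)
    (hns : ¬ ∃ c : K, a = c • (1 : Matrix n n K)) (Y : Matrix n n K) (hY : Yᵀ * E * Y = E) :
    Y ∈ Z := by
  have hu : ∀ g : Matrix n n K, gᵀ * E * g = E → IsUnit g.det := by
    intro g hg
    have h1 : (E⁻¹ * gᵀ * E) * g = 1 := by
      rw [mul_assoc, mul_assoc, ← mul_assoc gᵀ, hg, nonsing_inv_mul E hE]
    exact (isUnit_iff_isUnit_det g).mp (IsUnit.of_mul_eq_one_right _ h1)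
  obtain ⟨x, hx⟩ := not_eigen hns
  have hau := hu a haE
  -- the element of the Lie algebra
  have hX : s2 E (a *ᵥ x) (a *ᵥ x) + -s2 E x x ∈ lieOf Z := by
    apply lieOf_prod hmul
    intro s
    have h1 := hconj _ (tr_iso hskew x s) _ ha'
    have h2 := hmul _ ha _ h1
    have h3 : a * ((1 + s • s2 E x x) * a⁻¹ * (1 + s • s2 E x x)⁻¹) =
        (1 + s • s2 E (a *ᵥ x) (a *ᵥ x)) * (1 + s • (-s2 E x x)) := by
      have h4 := conj_tr (E := E) (X := a) (X' := a⁻¹) (μ := 1) (by rw [haE, one_smul])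
        (mul_nonsing_inv a hau) x s
      rw [mul_one] at h4
      rw [← h4, tr_inv hskew, ← mul_assoc, ← mul_assoc]
    rwa [h3] at h2
  obtain ⟨v, hv1, hv2⟩ := dual2 hE hx
  have hconjL : ∀ g : Matrix n n K, gᵀ * E * g = E → ∀ A ∈ lieOf Z, g * A * g⁻¹ ∈ lieOf Z := by
    intro g hg A hA
    have hgu := hu g hg
    apply lieOf_conj (nonsing_inv_mul g hgu) (mul_nonsing_inv g hgu) (hconj g hg) _ hA
    intro z hz
    have h1 : (g⁻¹)ᵀ * E * g⁻¹ = E := by
      have h2 : (g⁻¹)ᵀ * (gᵀ * E * g) * g⁻¹ = E := by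
        rw [mul_assoc, mul_assoc, mul_assoc, mul_nonsing_inv g hgu, mul_one, ← mul_assoc,
          ← transpose_mul, mul_nonsing_inv g hgu, transpose_one, one_mul]
      rwa [hg] at h2
    have h3 := hconj _ h1 z hz
    rwa [nonsing_inv_nonsing_inv g hgu] at h3
  -- one transvection
  have hV : s2 E v v ∈ lieOf Z := by
    have h1 := hconjL _ (tr_iso hskew v 1) _ hX
    have h2 := hconjL _ (tr_iso hskew v (-1)) _ hX
    rw [tr_inv hskew] at h1 h2
    have h3 := (lieOf Z).add_mem h1 h2
    have h4 := (lieOf Z).sub_mem h3 ((lieOf Z).smul_mem 2 hX)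
    have h5 : s2 E v v * (s2 E (a *ᵥ x) (a *ᵥ x) + -s2 E x x) * s2 E v v =
        (-4 * bil E (a *ᵥ x) v ^ 2) • s2 E v v := by
      apply ext_mulVec
      intro u
      rw [← mulVec_mulVec, ← mulVec_mulVec, smul_mulVec]
      simp only [s2_mulVec, add_mulVec, neg_mulVec, map_add, map_smul, smul_eq_mul, map_neg,
        LinearMap.add_apply, LinearMap.smul_apply, hv1]
      rw [skewm hskew v (a *ᵥ x)]
      module
    have h6 : (1 + (1 : K) • s2 E v v) * (s2 E (a *ᵥ x) (a *ᵥ x) + -s2 E x x) *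
        (1 + (1 : K) • (-s2 E v v)) + (1 + (-1 : K) • s2 E v v) *
        (s2 E (a *ᵥ x) (a *ᵥ x) + -s2 E x x) * (1 + (-1 : K) • (-s2 E v v)) -
        (2 : K) • (s2 E (a *ᵥ x) (a *ᵥ x) + -s2 E x x) =
        (8 * bil E (a *ᵥ x) v ^ 2) • s2 E v v := by
      have h7 : ∀ V X : Matrix n n K, (1 + (1 : K) • V) * X * (1 + (1 : K) • (-V)) +
          (1 + (-1 : K) • V) * X * (1 + (-1 : K) • (-V)) - (2 : K) • X =
          (-2 : K) • (V * X * V) := by
        intro V X
        simp only [mul_add, add_mul, mul_one, one_mul, smul_mul_assoc, mul_smul_comm, smul_smul,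
          smul_add, smul_neg, mul_neg, neg_mul, neg_smul, one_smul, neg_neg]
        module
      rw [h7, h5, smul_smul]
      congr 1
      ring
    rw [h6] at h4
    have h7 := (lieOf Z).smul_mem (8 * bil E (a *ᵥ x) v ^ 2)⁻¹ h4
    rwa [smul_smul, inv_mul_cancel₀ (mul_ne_zero (by norm_num) (pow_ne_zero 2 hv2)),
      one_smul] at h7
  have hv0 : v ≠ 0 := by
    rintro rfl
    rw [map_zero] at hv2
    exact hv2 rfl
  -- all transvections
  have hstep : ∀ v w : n → K, s2 E v v ∈ lieOf Z → bil E v w ≠ 0 → s2 E w w ∈ lieOf Z := by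
    intro v w hv hvw
    have h1 : ∀ c : K, s2 E (v + c • w) (v + c • w) ∈ lieOf Z := by
      intro c
      have hwv : bil E w v ≠ 0 := by
        rw [skewm hskew w v]
        exact neg_ne_zero.mpr hvw
      have h2 := hconjL _ (tr_iso hskew w (c / (2 * bil E w v))) _ hv
      have h3 : (1 + (c / (2 * bil E w v)) • s2 E w w) *ᵥ v = v + c • w := by
        rw [add_mulVec, one_mulVec, smul_mulVec, s2_mulVec, ← two_smul K, smul_smul, smul_smul]
        congr 2
        field_simp
      have h4 : (1 + (c / (2 * bil E w v)) • s2 E w w) * s2 E v v *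
          (1 + (c / (2 * bil E w v)) • s2 E w w)⁻¹ = s2 E (v + c • w) (v + c • w) := by
        have h5 := conj_tr (E := E) (X := 1 + (c / (2 * bil E w v)) • s2 E w w)
          (X' := (1 + (c / (2 * bil E w v)) • s2 E w w)⁻¹) (μ := 1)
          (by rw [tr_iso hskew, one_smul]) (mul_nonsing_inv _ (hu _ (tr_iso hskew _ _))) v 1
        rw [h3, mul_one, one_smul, one_smul, mul_add, mul_one, add_mul,
          mul_nonsing_inv _ (hu _ (tr_iso hskew _ _))] at h5
        exact add_left_cancel h5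
      rwa [h4] at h2
    have h2 := (lieOf Z).add_mem (h1 1) (h1 (-1))
    have h3 := (lieOf Z).sub_mem h2 ((lieOf Z).smul_mem 2 hv)
    have h4 : s2 E (v + (1 : K) • w) (v + (1 : K) • w) + s2 E (v + (-1 : K) • w) (v + (-1 : K) • w) -
        (2 : K) • s2 E v v = (2 : K) • s2 E w w := by
      apply ext_mulVec
      intro u
      simp only [s2_mulVec, sub_mulVec, add_mulVec, smul_mulVec, map_add, map_smul,
        LinearMap.add_apply, LinearMap.smul_apply, smul_eq_mul]
      module
    rw [h4] at h3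
    have h5 := (lieOf Z).smul_mem (2 : K)⁻¹ h3
    rwa [smul_smul, inv_mul_cancel₀ two_ne_zero, one_smul] at h5
  have hall : ∀ w, s2 E w w ∈ lieOf Z := by
    intro w
    by_cases hw : w = 0
    · have h1 : s2 E w w = 0 := by
        apply ext_mulVec
        intro u
        rw [s2_mulVec, hw, map_zero, LinearMap.zero_apply, zero_smul, zero_mulVec, add_zero]
      rw [h1]
      exact (lieOf Z).zero_mem
    · obtain ⟨u, hu1, hu2⟩ := avoid2 hE hv0 hw
      apply hstep u w (hstep v u hV hu1)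
      rw [skewm hskew u w]
      exact neg_ne_zero.mpr hu2
  exact sp_le hE hskew hone hmul hcl hall Y hY

end lin

theorem emb_unit {d : Type*} [Fintype d] [DecidableEq d] {J0 : Matrix d d ℚ} (h : IsUnit J0.det) :
    IsUnit (J0.map (algebraMap ℚ ℂ)).det := by
  have h2 := h.map (algebraMap ℚ ℂ)
  rwa [RingHom.map_det, RingHom.mapMatrix_apply] at h2

theorem emb_skew {d : Type*} [Fintype d] [DecidableEq d] {J0 : Matrix d d ℚ} (h : J0ᵀ = -J0) :
    (J0.map (algebraMap ℚ ℂ))ᵀ = -J0.map (algebraMap ℚ ℂ) := by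
  rw [← transpose_map, h]
  ext i j
  simp

/-- NRM: normal subgroups of Zariski dense subgroups of the symplectic group -/
theorem nrm : NrmStmt := by
  intro d _ _ J0 hskew hunit M Γ hM hMA hΓA h1 hmul hinv hn hex f hf g hg
  obtain ⟨a, ha, hns⟩ := hex
  have hE := emb_unit hunit
  have hdet : ∀ x ∈ Aut J0, IsUnit x.det := by
    intro x hx
    have h2 : ((J0.map (algebraMap ℚ ℂ))⁻¹ * xᵀ * J0.map (algebraMap ℚ ℂ)) * x = 1 := by
      have h3 : xᵀ * J0.map (algebraMap ℚ ℂ) * x = J0.map (algebraMap ℚ ℂ) := hx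
      rw [mul_assoc, mul_assoc, ← mul_assoc xᵀ, h3, nonsing_inv_mul _ hE]
    exact (isUnit_iff_isUnit_det x).mp (IsUnit.of_mul_eq_one_right _ h2)
  have hsub : Γ ⊆ zcl Γ := subset_zcl (fun x hx => hdet x (hΓA hx))
  have key : g ∈ zcl Γ := by
    apply nrm_core hE (emb_skew hskew) (hsub h1) (fun x hx y hy => zcl_mul hmul hx hy)
      (zcl_closed Γ (fun x hx => hdet x (hΓA hx))) _ (hsub ha) (hsub (hinv a ha)) (hΓA ha) hns g hg
    intro x hx z hz
    exact zcl_conj hE (G := Aut J0) (fun y hy => hy) hM (fun y hy => hMA hy) hn hz hx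
  exact key.2 f hf

end Pool.Agent.MT100G.H15
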